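import Pool.Agent.Helper75.FS.St

/-!
# Project FS, module B3: codes do not exist below the threshold
-/

set_option autoImplicit false

namespace Pool.Agent.Helper16.FS

open Filter Topology Pool.Agent.Helper75.FS

lemma b3_lim (r : ℕ) (δ : ℝ) (hδ : 0 < δ) :
    ∃ N : ℕ, ∀ n : ℕ, N ≤ n → ((n : ℝ) + r) ^ r ≤ (1 + δ) * (n : ℝ) ^ r := by
  have h1 : Tendsto (fun n : ℕ => (1 + (r : ℝ) / (n : ℝ)) ^ r) atTop (𝓝 ((1 + 0) ^ r)) :=
    ((tendsto_const_div_atTop_nhds_zero_nat (r : ℝ)).const_add 1).pow r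
  rw [add_zero, one_pow] at h1
  have h2 : ∀ᶠ n : ℕ in atTop, (1 + (r : ℝ) / (n : ℝ)) ^ r < 1 + δ :=
    h1.eventually_lt_const (by linarith)
  rw [eventually_atTop] at h2
  obtain ⟨N, hN⟩ := h2
  refine ⟨max N 1, fun n hn => ?_⟩
  have hn1 : N ≤ n := (le_max_left _ _).trans hn
  have hn2 : 1 ≤ n := (le_max_right _ _).trans hn
  have h0 : (0 : ℝ) < n := by exact_mod_cast hn2
  have h3 : (n : ℝ) + r = n * (1 + r / n) := by field_simp
  rw [h3, mul_pow, mul_comm]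
  exact mul_le_mul_of_nonneg_right (hN n hn1).le (by positivity)

theorem hB3 (hA4 : StA4) (hB1 : StB1) : StB3 := by
  intro r hr ε hε
  have hr0 : (0 : ℝ) < (2 * (r : ℝ)) ^ r := by
    have : (0 : ℝ) < r := by exact_mod_cast hr
    positivity
  set δ : ℝ := ε / (2 * (r : ℝ)) ^ r with hδ
  have hδ0 : 0 < δ := by positivity
  obtain ⟨N, hN⟩ := b3_lim r δ hδ0
  refine ⟨N, fun c hc n hcode => ?_⟩
  have hcn : c ≤ n := hA4.2.2.1 n r c hcode
  have h1 := hN n (hc.trans hcn)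
  have h2 := (hB1 r hr).2.2.1 n c hcode
  have h3 := (hB1 r hr).1 c
  have hpos : (0 : ℝ) < (r.factorial : ℝ) * 2 ^ c := by positivity
  rw [le_div_iff₀ hpos] at h2
  have h4 : LL r c * ((r.factorial : ℝ) * 2 ^ c) ≤ (1 + δ) * (n : ℝ) ^ r := h2.trans h1
  have h5 : δ * LL r c ≤ ε := by
    calc δ * LL r c ≤ δ * (2 * (r : ℝ)) ^ r := mul_le_mul_of_nonneg_left h3.2 hδ0.le
      _ = ε := by rw [hδ]; field_simp
  have h6 : (LL r c - ε) ≤ (1 - δ) * LL r c := by linarith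
  have h7 : (LL r c - ε) * ((r.factorial : ℝ) * 2 ^ c) ≤
      (1 - δ) * (LL r c * ((r.factorial : ℝ) * 2 ^ c)) := by
    rw [← mul_assoc (1 - δ)]
    exact mul_le_mul_of_nonneg_right h6 hpos.le
  refine h7.trans ?_
  have hn0 : (0 : ℝ) ≤ (n : ℝ) ^ r := by positivity
  have hL0 : 0 ≤ LL r c * ((r.factorial : ℝ) * 2 ^ c) := by
    have : 0 ≤ LL r c := by linarith [h3.1]
    positivity
  by_cases hd : δ ≤ 1
  · calc (1 - δ) * (LL r c * ((r.factorial : ℝ) * 2 ^ c))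
        ≤ (1 - δ) * ((1 + δ) * (n : ℝ) ^ r) :=
          mul_le_mul_of_nonneg_left h4 (by linarith)
      _ = (1 - δ ^ 2) * (n : ℝ) ^ r := by ring
      _ ≤ 1 * (n : ℝ) ^ r := mul_le_mul_of_nonneg_right (by nlinarith) hn0
      _ = (n : ℝ) ^ r := one_mul _
  · push Not at hd
    have : (1 - δ) * (LL r c * ((r.factorial : ℝ) * 2 ^ c)) ≤ 0 :=
      mul_nonpos_of_nonpos_of_nonneg (by linarith) hL0
    linarith

end Pool.Agent.Helper16.FS
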